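import Mathlib
import Pool.Agent.H7.TwoSided

set_option autoImplicit false

namespace Pool.Agent.Results.MP_98b1c4_co.Counter

open Pool.Agent.H7.TwoSided

theorem r60 : RegA [60, 30, 15, 7, 4, 2, 1, 1] :=
  .front _ 7 (.front _ 6 (.front _ 5 (.front _ 3 (.front _ 3 (.front _ 2 .base (by decide) (by decide))
    (by decide) (by decide)) (by decide) (by decide)) (by decide) (by decide)) (by decide) (by decide))
    (by decide) (by decide)

theorem r5160 : RegA [19, 16, 3, 2, 1, 1, 1, 8, 51, 60] :=
  .back [19, 16, 3, 2, 1, 1, 1, 8, 51] 3 (.back [19, 16, 3, 2, 1, 1, 1, 8] 8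
    (.front _ 2 (.front _ 6 (.back [3, 2, 1, 1, 1] 5 (.front _ 2 (.front _ 2
      (.front _ 1 .base (by decide) (by decide))
    (by decide) (by decide)) (by decide) (by decide)) (by decide) (by decide)) (by decide) (by decide))
    (by decide) (by decide)) (by decide) (by decide)) (by decide) (by decide)

theorem result : ¬ ∀ k₁ k₂ : ℕ, 0 < k₁ → k₁ ≤ k₂ → a [k₁, k₂] ≤ a [k₂] + 1 := fun h => by
  have h1 := h 51 60 (by norm_num) (by norm_num)
  have h2 : a [60] ≤ 8 := Nat.sInf_le ⟨_, r60, rfl, by decide⟩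
  have h3 := a_gt 51 60 7 (by norm_num) (by decide +kernel) _ r5160 (by decide)
  omega

end Pool.Agent.Results.MP_98b1c4_co.Counter
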